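import Pool.Agent.PCS.Stmts

/-!
# Squad PCS, row LEV (levels and orbits)
-/

set_option autoImplicit false

open scoped Pointwise

namespace Pool.Agent.PCS.H21

open Pool.Agent.PCS

theorem lev : LevStmt := by
  intro Γ V _ _ T
  have hd : 1 ≤ T.d := by
    obtain ⟨i, hi, -⟩ := T.ex_child (T.child 0 T.root) (by rw [T.lv_child]; omega)
    omega
  have hfin : ∀ n : ℕ, {v : V | T.lv v = n}.Finite := by
    intro n
    induction n with
    | zero =>
      refine (Set.finite_singleton T.root).subset fun v hv => ?_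
      exact T.eq_root v hv
    | succ n ih =>
      have h : {v : V | T.lv v = n + 1} ⊆
          (fun p : ℕ × V => T.child p.1 p.2) '' ((Finset.range T.d : Set ℕ) ×ˢ {v : V | T.lv v = n}) := by
        intro w hw
        have hw' : T.lv w = n + 1 := hw
        obtain ⟨i, hi, he⟩ := T.ex_child w (by omega)
        refine ⟨(i, T.par w), ⟨?_, ?_⟩, he⟩
        · simpa using hi
        · show T.lv (T.par w) = n
          rw [T.lv_par, hw']
          rfl
      exact (((Finset.range T.d).finite_toSet.prod ih).image _).subset h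
  have horb : ∀ v : V, (MulAction.orbit Γ v).Finite := by
    intro v
    refine (hfin (T.lv v)).subset ?_
    rintro _ ⟨g, rfl⟩
    exact T.lv_smul g v
  refine ⟨hd, fun v => ⟨horb v, ?_, fun hv => ⟨?_, ?_⟩⟩⟩
  · have h1 : (MulAction.orbit Γ v).Nonempty := ⟨v, MulAction.mem_orbit_self v⟩
    exact (Set.ncard_pos (horb v)).2 h1
  · have h1 : T.par '' MulAction.orbit Γ v = MulAction.orbit Γ (T.par v) := by
      ext w
      constructor
      · rintro ⟨_, ⟨g, rfl⟩, rfl⟩
        exact ⟨g, (T.par_smul g v).symm⟩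
      · rintro ⟨g, rfl⟩
        exact ⟨g • v, ⟨g, rfl⟩, T.par_smul g v⟩
    unfold N
    rw [← h1]
    exact Set.ncard_image_le (horb v)
  · have h1 : MulAction.orbit Γ v ⊆
        (fun p : ℕ × V => T.child p.1 p.2) ''
          ((Finset.range T.d : Set ℕ) ×ˢ MulAction.orbit Γ (T.par v)) := by
      rintro _ ⟨g, rfl⟩
      obtain ⟨i, hi, he⟩ := T.ex_child (g • v) (by rw [T.lv_smul]; exact hv)
      refine ⟨(i, T.par (g • v)), ⟨?_, ?_⟩, he⟩
      · simpa using hi
      · rw [T.par_smul]
        exact ⟨g, rfl⟩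
    have hf : ((Finset.range T.d : Set ℕ) ×ˢ MulAction.orbit Γ (T.par v)).Finite :=
      (Finset.range T.d).finite_toSet.prod (horb (T.par v))
    have h2 := (Set.ncard_le_ncard h1 (hf.image _)).trans (Set.ncard_image_le hf)
    have h3 : ((Finset.range T.d : Set ℕ) ×ˢ MulAction.orbit Γ (T.par v)).ncard =
        T.d * (MulAction.orbit Γ (T.par v)).ncard := by
      rw [Set.ncard_prod, Set.ncard_coe_finset, Finset.card_range]
    rw [h3] at h2
    exact h2

end Pool.Agent.PCS.H21
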